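import Pool.Agent.Helper50.MB.Goals

/-!
# Packet MB-SEP (MP_fda85d): balanced edge separators for abstract dual pairs of graphs.
-/

set_option autoImplicit false

namespace Pool.Agent.Helper54.MB

open Pool.Agent.Helper50.MB

theorem card_edges {X E : Type} [Fintype X] [Fintype E] (gs gt : E → X)
    (hdeg : ∀ x, {e | gs e = x ∨ gt e = x}.ncard ≤ 4) :
    Fintype.card E ≤ 4 * Fintype.card X := by
  classical
  have h := Finset.card_le_mul_card_image (f := gs) (Finset.univ : Finset E) 4 (by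
    intro x _
    calc (Finset.univ.filter (fun e => gs e = x)).card
        = ({e | gs e = x} : Set E).ncard := by
          rw [Set.ncard_eq_toFinset_card']
          congr 1
          ext e; simp
      _ ≤ {e | gs e = x ∨ gt e = x}.ncard :=
          Set.ncard_le_ncard (fun e he => Or.inl he) (Set.toFinite _)
      _ ≤ 4 := hdeg x)
  rw [Finset.card_univ] at h
  calc Fintype.card E ≤ 4 * (Finset.univ.image gs).card := h
    _ ≤ 4 * Fintype.card X := Nat.mul_le_mul_left _ (Finset.card_le_univ _)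

theorem goalSEP (hFC : Pool.Agent.Helper50.MB.FC) (hTC : Pool.Agent.Helper50.MB.TC)
    (hLV : Pool.Agent.Helper50.MB.LV) : Pool.Agent.Helper50.MB.SEP := by
  intro X F E _ _ _ gs gt qs qt phi hN hg hq heul hev hdeg hphi
  classical
  have hX : Nonempty X := Fintype.card_pos_iff.mp (by omega)
  obtain ⟨x0⟩ := hX
  obtain ⟨d, dx, px, ex, hd, hx0, hpe, hinj, hcut⟩ :=
    hFC X F E gs gt qs qt x0 (phi x0) (by omega) hg hq heul hev
  have hdist := hphi d hd
  set N := Fintype.card X with hNdef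
  set s := Nat.sqrt N + 1 with hs
  have hs2 : N < s * s := Nat.lt_succ_sqrt N
  have hs1 : 1 ≤ s := by omega
  obtain ⟨lam, hlam⟩ : ∃ lam : X → ℕ, ∀ x, lam x = d (phi x) := ⟨_, fun _ => rfl⟩
  have hlamd : ∀ x e, (gs e = x ∨ gt e = x) →
      lam x ≤ d (qs e) + 2 ∧ d (qs e) ≤ lam x + 2 ∧ lam x ≤ d (qt e) + 2 ∧
        d (qt e) ≤ lam x + 2 := by
    intro x e he
    rw [hlam]
    exact hdist x e he
  have hlip : ∀ e, lam (gs e) ≤ lam (gt e) + 4 ∧ lam (gt e) ≤ lam (gs e) + 4 := by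
    intro e
    have h1 := hlamd (gs e) e (Or.inl rfl)
    have h2 := hlamd (gt e) e (Or.inr rfl)
    omega
  have hE : Fintype.card E ≤ 4 * N := card_edges gs gt hdeg
  have hlev : ∀ a : ℕ, ∃ k, a ≤ k ∧ k < a + s ∧
      {e | ¬ (lam (gs e) < k ↔ lam (gt e) < k)}.ncard ≤ 16 * s := by
    intro a
    obtain ⟨k, h1, h2, h3⟩ := hLV X E gs gt lam hlip a s hs1
    refine ⟨k, h1, h2, ?_⟩
    rw [Nat.card_eq_fintype_card] at h3
    have h4 : s * {e | ¬ (lam (gs e) < k ↔ lam (gt e) < k)}.ncard < s * (16 * s) := by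
      calc s * {e | ¬ (lam (gs e) < k ↔ lam (gt e) < k)}.ncard ≤ 4 * Fintype.card E := h3
        _ ≤ 16 * N := by omega
        _ < 16 * (s * s) := by omega
        _ = s * (16 * s) := by ring
    exact (Nat.lt_of_mul_lt_mul_left h4).le
  -- the counting function of the levels
  have hfin : ∀ S : Set X, S.Finite := fun S => Set.toFinite S
  have hcompl : ∀ S : Set X, S.ncard + Sᶜ.ncard = N := by
    intro S
    rw [Set.ncard_add_ncard_compl, Nat.card_eq_fintype_card]
  have hex : ∃ k, N < 2 * {x | lam x < k}.ncard := by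
    obtain ⟨B, hB⟩ : ∃ B, ∀ x, lam x < B := by
      refine ⟨(Finset.univ.sup lam) + 1, fun x => ?_⟩
      exact Nat.lt_succ_of_le (Finset.le_sup (Finset.mem_univ x))
    refine ⟨B, ?_⟩
    have : {x | lam x < B} = Set.univ := by
      ext x; simp [hB x]
    rw [this, Set.ncard_univ, Nat.card_eq_fintype_card]
    omega
  obtain ⟨q, hq1, hq2⟩ : ∃ q, N < 2 * {x | lam x < q}.ncard ∧
      ∀ k < q, 2 * {x | lam x < k}.ncard ≤ N :=
    ⟨Nat.find hex, Nat.find_spec hex, fun k hk => not_lt.mp (Nat.find_min hex hk)⟩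
  have hq0 : 0 < q := by
    rcases Nat.eq_zero_or_pos q with h | h
    · subst h
      simp at hq1
    · exact h
  obtain ⟨k0, hk0q, hk0s, hk0c⟩ : ∃ k, k < q ∧ q ≤ k + s ∧
      {e | ¬ (lam (gs e) < k ↔ lam (gt e) < k)}.ncard ≤ 16 * s := by
    by_cases h : q < s
    · refine ⟨0, hq0, by omega, ?_⟩
      have : {e | ¬ (lam (gs e) < 0 ↔ lam (gt e) < 0)} = (∅ : Set E) := by
        ext e; simp
      rw [this]; simp
    · obtain ⟨k, h1, h2, h3⟩ := hlev (q - s)
      exact ⟨k, by omega, by omega, h3⟩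
  obtain ⟨k1, hk1q, hk1s, hk1c⟩ := hlev q
  have hP0 : 2 * {x | lam x < k0}.ncard ≤ N := hq2 k0 hk0q
  have hP2 : 2 * {x | k1 ≤ lam x}.ncard ≤ N := by
    have h1 : ({x | k1 ≤ lam x} : Set X) = {x | lam x < k1}ᶜ := by
      ext x; simp
    have h2 := hcompl {x | lam x < k1}
    rw [← h1] at h2
    have h3 : {x | lam x < q}.ncard ≤ {x | lam x < k1}.ncard :=
      Set.ncard_le_ncard (fun x hx => lt_of_lt_of_le hx hk1q) (hfin _)
    omega
  by_cases c0 : N ≤ 16 * {x | lam x < k0}.ncard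
  · refine ⟨{x | lam x < k0}, c0, ?_, ?_⟩
    · have := hcompl {x | lam x < k0}
      omega
    · refine le_trans hk0c (by omega)
  by_cases c2 : N ≤ 16 * {x | k1 ≤ lam x}.ncard
  · refine ⟨{x | k1 ≤ lam x}, c2, ?_, ?_⟩
    · have := hcompl {x | k1 ≤ lam x}
      omega
    · have h1 : {e | ¬ (gs e ∈ {x | k1 ≤ lam x} ↔ gt e ∈ {x | k1 ≤ lam x})} =
          {e | ¬ (lam (gs e) < k1 ↔ lam (gt e) < k1)} := by
        ext e
        simp only [Set.mem_ofPred_eq]
        constructor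
        · intro h h'
          apply h
          constructor <;> intro h'' <;> omega
        · intro h h'
          apply h
          constructor <;> intro h'' <;> omega
      rw [h1]
      refine le_trans hk1c (by omega)
  -- the middle part
  obtain ⟨M, hM⟩ : ∃ M : Set X, ∀ x, x ∈ M ↔ (k0 ≤ lam x ∧ lam x < k1) :=
    ⟨{x | k0 ≤ lam x ∧ lam x < k1}, fun x => Iff.rfl⟩
  have hMc : N ≤ {x | lam x < k0}.ncard + M.ncard + {x | k1 ≤ lam x}.ncard := by
    have h1 : (Set.univ : Set X) ⊆ ({x | lam x < k0} ∪ M) ∪ {x | k1 ≤ lam x} := by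
      intro x _
      by_cases h2 : lam x < k0
      · exact Or.inl (Or.inl h2)
      · by_cases h3 : k1 ≤ lam x
        · exact Or.inr h3
        · exact Or.inl (Or.inr ((hM x).mpr ⟨by omega, by omega⟩))
    have h2 := Set.ncard_le_ncard h1 (hfin _)
    rw [Set.ncard_univ, Nat.card_eq_fintype_card] at h2
    have h3 := Set.ncard_union_le ({x | lam x < k0} ∪ M) {x | k1 ≤ lam x}
    have h4 := Set.ncard_union_le {x | lam x < k0} M
    omega
  have hM3 : 3 ≤ M.ncard := by omega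
  obtain ⟨v, hv0, hv1, hv2⟩ := hTC X E gs gt x0 dx px ex hx0 hpe hinj hdeg M hM3
  have hMN : M.ncard ≤ N := by
    have := hcompl M
    omega
  refine ⟨{x | x ∈ M ∧ Dsc px v x}, by omega, ?_, ?_⟩
  · have := hcompl {x | x ∈ M ∧ Dsc px v x}
    omega
  · have hsub : {e | ¬ (gs e ∈ {x | x ∈ M ∧ Dsc px v x} ↔ gt e ∈ {x | x ∈ M ∧ Dsc px v x})} ⊆
        ({e | ¬ (lam (gs e) < k0 ↔ lam (gt e) < k0)} ∪
          {e | ¬ (lam (gs e) < k1 ↔ lam (gt e) < k1)}) ∪
        {e | ¬ (Dsc px v (gs e) ↔ Dsc px v (gt e)) ∧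
          k0 - 2 ≤ max (d (qs e)) (d (qt e)) ∧ max (d (qs e)) (d (qt e)) ≤ k1 + 1} := by
      intro e he
      simp only [Set.mem_ofPred_eq, Set.mem_union, hM] at he ⊢
      by_contra hcon
      push Not at hcon
      obtain ⟨⟨h1, h2⟩, h3⟩ := hcon
      have hs' := hlamd (gs e) e (Or.inl rfl)
      have ht' := hlamd (gt e) e (Or.inr rfl)
      apply he
      constructor
      · rintro ⟨⟨h4, h5⟩, h6⟩
        have h7 : ¬ lam (gt e) < k0 := fun h => absurd (h1.mpr h) (by omega)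
        have h8 : lam (gt e) < k1 := h2.mp h5
        refine ⟨⟨by omega, h8⟩, ?_⟩
        by_contra h9
        have h10 := h3 (Or.inl ⟨h6, h9⟩) (by omega)
        omega
      · rintro ⟨⟨h4, h5⟩, h6⟩
        have h7 : ¬ lam (gs e) < k0 := fun h => absurd (h1.mp h) (by omega)
        have h8 : lam (gs e) < k1 := h2.mpr h5
        refine ⟨⟨by omega, h8⟩, ?_⟩
        by_contra h9
        have h10 := h3 (Or.inr ⟨h9, h6⟩) (by omega)
        omega
    have hc := hcut v hv0 (k0 - 2) (k1 + 1)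
    refine le_trans (Set.ncard_le_ncard hsub (Set.toFinite _)) ?_
    refine le_trans (Set.ncard_union_le _ _) ?_
    have h5 := Set.ncard_union_le {e | ¬ (lam (gs e) < k0 ↔ lam (gt e) < k0)}
      {e | ¬ (lam (gs e) < k1 ↔ lam (gt e) < k1)}
    omega

end Pool.Agent.Helper54.MB
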