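import Pool.Agent.Helper59.MB.Goals1

/-!
# Project MB, packet MB-FCA: uniform averages of the cylinder functions
-/

set_option autoImplicit false

open MeasureTheory Filter Topology Finset

namespace Pool.Agent.Helper54.MB

open Pool.Agent.Helper59.MB

/-- a family of real sequences which is, for every `ε`, uniformly within `ε N` of a linear function
eventually has one linear function which works for all `ε` -/
theorem exists_slope {Y : Type} (K : Set Y) (F : ℕ → Y → ℝ)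
    (h : ∀ ε > 0, ∃ b : ℝ, ∃ N₀ : ℕ, ∀ N ≥ N₀, ∀ x ∈ K, |F N x - b * N| ≤ ε * N) :
    ∃ c : ℝ, ∀ ε > 0, ∃ N₀ : ℕ, ∀ N ≥ N₀, ∀ x ∈ K, |F N x - c * N| ≤ ε * N := by
  by_cases hK : K.Nonempty
  swap
  · exact ⟨0, fun ε _ => ⟨0, fun N _ x hx => absurd ⟨x, hx⟩ hK⟩⟩
  obtain ⟨x0, hx0⟩ := hK
  have h' : ∀ n : ℕ, ∃ b : ℝ, ∃ N₀ : ℕ, ∀ N ≥ N₀, ∀ x ∈ K,
      |F N x - b * N| ≤ 1 / ((n : ℝ) + 1) * N := fun n => h _ (by positivity)
  choose b N₀ hb using h'
  have hd : ∀ n m : ℕ, |b n - b m| ≤ 1 / ((n : ℝ) + 1) + 1 / ((m : ℝ) + 1) := by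
    intro n m
    have h1 := hb n (max (max (N₀ n) (N₀ m)) 1)
      ((le_max_left _ _).trans (le_max_left _ _)) x0 hx0
    have h2 := hb m (max (max (N₀ n) (N₀ m)) 1)
      ((le_max_right _ _).trans (le_max_left _ _)) x0 hx0
    set N : ℕ := max (max (N₀ n) (N₀ m)) 1 with hN
    have hN1 : (1 : ℝ) ≤ (N : ℝ) := by
      have : 1 ≤ N := le_max_right _ _
      exact_mod_cast this
    have hN0 : (0 : ℝ) < (N : ℝ) := lt_of_lt_of_le one_pos hN1
    have h3 : |(b n - b m) * N| ≤ (1 / ((n : ℝ) + 1) + 1 / ((m : ℝ) + 1)) * N := by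
      have e : (b n - b m) * N = (F N x0 - b m * N) - (F N x0 - b n * N) := by ring
      rw [e, add_mul]
      refine (abs_sub _ _).trans ?_
      linarith
    rw [abs_mul, abs_of_pos hN0] at h3
    exact le_of_mul_le_mul_right h3 hN0
  have hmono : ∀ n m : ℕ, n ≤ m → 1 / ((m : ℝ) + 1) ≤ 1 / ((n : ℝ) + 1) := by
    intro n m hnm
    refine one_div_le_one_div_of_le (by positivity) ?_
    have : (n : ℝ) ≤ m := by exact_mod_cast hnm
    linarith
  have hc : CauchySeq b := by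
    refine cauchySeq_of_le_tendsto_0 (fun n : ℕ => 2 * (1 / ((n : ℝ) + 1))) ?_ ?_
    · intro n m N hn hm
      rw [Real.dist_eq]
      have h1 := hd n m
      have h2 := hmono N n hn
      have h3 := hmono N m hm
      linarith
    · have := (tendsto_one_div_add_atTop_nhds_zero_nat (𝕜 := ℝ)).const_mul 2
      simpa using this
  obtain ⟨c, hcl⟩ := cauchySeq_tendsto_of_complete hc
  refine ⟨c, fun ε hε => ?_⟩
  obtain ⟨n, hn⟩ := exists_nat_gt (3 / ε)
  have hnc : |b n - c| ≤ 2 * (1 / ((n : ℝ) + 1)) := by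
    have ht : Tendsto (fun m => |b n - b m|) atTop (𝓝 |b n - c|) :=
      (tendsto_const_nhds.sub hcl).abs
    refine le_of_tendsto ht ?_
    filter_upwards [eventually_ge_atTop n] with m hm
    have h1 := hd n m
    have h2 := hmono n m hm
    linarith
  refine ⟨N₀ n, fun N hN x hx => ?_⟩
  have h1 := hb n N hN x hx
  have hN0 : (0 : ℝ) ≤ (N : ℝ) := Nat.cast_nonneg N
  have h2 : |F N x - c * N| ≤ 1 / ((n : ℝ) + 1) * N + 2 * (1 / ((n : ℝ) + 1)) * N := by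
    have e : F N x - c * N = (F N x - b n * N) + (b n - c) * N := by ring
    rw [e]
    refine (abs_add_le _ _).trans (add_le_add h1 ?_)
    rw [abs_mul, abs_of_nonneg hN0]
    exact mul_le_mul_of_nonneg_right hnc hN0
  have h3 : 3 * (1 / ((n : ℝ) + 1)) ≤ ε := by
    have hpos : (0 : ℝ) < (n : ℝ) + 1 := by positivity
    rw [mul_one_div, div_le_iff₀ hpos]
    rw [div_lt_iff₀ hε] at hn
    linarith
  calc |F N x - c * N| ≤ 1 / ((n : ℝ) + 1) * N + 2 * (1 / ((n : ℝ) + 1)) * N := h2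
    _ = 3 * (1 / ((n : ℝ) + 1)) * N := by ring
    _ ≤ ε * N := mul_le_mul_of_nonneg_right h3 hN0

theorem t_FCA (hAVG : S_AVG) (hCYL : S_CYL) : S_FCA := by
  intro s V m _ hPar c
  have hs : StrictMono s := (hPar 0).mono
  refine exists_slope (X s V m) (fun N x => ∑ n ∈ Icc 1 N, Fc s c ((⇑TB)^[n] x)) ?_
  intro ε hε
  obtain ⟨i, hi⟩ := exists_nat_gt (2 * (c.1 : ℝ) / (ε / 3))
  set l : ℕ := Nat.pair (Encodable.encode c) (max i c.1) with hl
  have hspec : spec l = c := by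
    simp only [spec, hl, Nat.unpair_pair, Encodable.encodek, Option.getD_some]
  have hil : max i c.1 ≤ l := Nat.right_le_pair _ _
  have hcl : c.1 ≤ l := (le_max_right _ _).trans hil
  have hP : (i : ℝ) ≤ (P s l : ℝ) := by
    have h1 : i ≤ P s l := by
      calc i ≤ l := (le_max_left _ _).trans hil
        _ ≤ s l := hs.le_apply
        _ ≤ 2 ^ s l := Nat.lt_two_pow_self.le
        _ = P s l := rfl
    exact_mod_cast h1
  have hPpos : (0 : ℝ) < (P s l : ℝ) := by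
    have : 0 < P s l := Nat.two_pow_pos _
    exact_mod_cast this
  obtain ⟨a, ha⟩ := hAVG s V m hPar l
  obtain ⟨N₁, hN₁⟩ := ha (ε / 3) (by positivity)
  obtain ⟨N₂, hN₂⟩ := exists_nat_gt (2 * (c.1 : ℝ) / (ε / 3))
  refine ⟨a, max N₁ N₂, fun N hN x hx => ?_⟩
  have h1 := hN₁ N ((le_max_left _ _).trans hN) x hx
  have h2 := hCYL s hs c l hspec hcl x N
  have hN0 : (0 : ℝ) ≤ (N : ℝ) := Nat.cast_nonneg N
  have h3 : |∑ n ∈ Icc 1 N, Fc s c ((⇑TB)^[n] x) - ∑ n ∈ Icc 1 N, Th s l ((⇑TB)^[n] x)| ≤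
      2 * c.1 * ((N : ℝ) / P s l + 1) := by
    rw [← Finset.sum_sub_distrib]
    exact (Finset.abs_sum_le_sum_abs _ _).trans h2
  have h4 : 2 * (c.1 : ℝ) ≤ ε / 3 * P s l := by
    have h5 := hi.le
    rw [div_le_iff₀ (by positivity)] at h5
    calc 2 * (c.1 : ℝ) ≤ i * (ε / 3) := h5
      _ ≤ P s l * (ε / 3) := mul_le_mul_of_nonneg_right hP (by positivity)
      _ = ε / 3 * P s l := by ring
  have h5 : 2 * (c.1 : ℝ) * ((N : ℝ) / P s l) ≤ ε / 3 * N := by
    rw [← mul_div_assoc, div_le_iff₀ hPpos]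
    calc 2 * (c.1 : ℝ) * N ≤ (ε / 3 * P s l) * N := mul_le_mul_of_nonneg_right h4 hN0
      _ = ε / 3 * N * P s l := by ring
  have h6 : 2 * (c.1 : ℝ) ≤ ε / 3 * N := by
    have h7 := hN₂.le
    rw [div_le_iff₀ (by positivity)] at h7
    have h8 : (N₂ : ℝ) ≤ N := by
      have : N₂ ≤ N := (le_max_right _ _).trans hN
      exact_mod_cast this
    calc 2 * (c.1 : ℝ) ≤ N₂ * (ε / 3) := h7
      _ ≤ N * (ε / 3) := mul_le_mul_of_nonneg_right h8 (by positivity)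
      _ = ε / 3 * N := by ring
  have h7 : 2 * (c.1 : ℝ) * ((N : ℝ) / P s l + 1) ≤ ε / 3 * N + ε / 3 * N := by
    rw [mul_add, mul_one]
    exact add_le_add h5 h6
  show |∑ n ∈ Icc 1 N, Fc s c ((⇑TB)^[n] x) - a * N| ≤ ε * N
  have e : ∑ n ∈ Icc 1 N, Fc s c ((⇑TB)^[n] x) - a * N =
      (∑ n ∈ Icc 1 N, Fc s c ((⇑TB)^[n] x) - ∑ n ∈ Icc 1 N, Th s l ((⇑TB)^[n] x)) +
        (∑ n ∈ Icc 1 N, Th s l ((⇑TB)^[n] x) - a * N) := by ring
  rw [e]
  refine (abs_add_le _ _).trans ?_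
  linarith

end Pool.Agent.Helper54.MB
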