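import Pool.Agent.Helper59.MB.Goals2

/-!
# Project MB, packet MB-KE1: the best predictor exists
-/

set_option autoImplicit false

open Finset

namespace Pool.Agent.Helper54.MB

open Pool.Agent.Helper59.MB

open Classical in
/-- the places in `[1, N]` with the past `p` -/
noncomputable def cls (u : ℕ → ℤ) (N r : ℕ) (p : ℕ → ℤ) : Finset ℕ :=
  (Icc 1 N).filter fun n => ∀ i < r, past u n i = p i

/-- the mean over the places with the past `p` -/
noncomputable def bp (u : ℕ → ℤ) (N r : ℕ) (p : ℕ → ℤ) : ℝ :=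
  (∑ n ∈ cls u N r p, (u n : ℝ)) / (cls u N r p).card

lemma cls_congr (u : ℕ → ℤ) (N r : ℕ) (p p' : ℕ → ℤ) (h : ∀ i < r, p i = p' i) :
    cls u N r p = cls u N r p' := by
  classical
  unfold cls
  refine Finset.filter_congr fun n _ => ?_
  constructor
  · intro h1 i hi
    rw [h1 i hi, h i hi]
  · intro h1 i hi
    rw [h1 i hi, h i hi]

lemma bp_loc (u : ℕ → ℤ) (N r : ℕ) : Loc r (bp u N r) := by
  intro p p' h
  unfold bp
  rw [cls_congr u N r p p' h]

lemma bp_le (u : ℕ → ℤ) (hu : ∀ n, |u n| ≤ 1) (N r : ℕ) (p : ℕ → ℤ) : |bp u N r p| ≤ 1 := by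
  unfold bp
  rw [abs_div, Nat.abs_cast]
  refine div_le_one_of_le₀ ?_ (Nat.cast_nonneg _)
  calc |∑ n ∈ cls u N r p, (u n : ℝ)| ≤ ∑ n ∈ cls u N r p, |(u n : ℝ)| :=
        Finset.abs_sum_le_sum_abs _ _
    _ ≤ ∑ n ∈ cls u N r p, (1 : ℝ) := Finset.sum_le_sum fun n _ => by exact_mod_cast hu n
    _ = (cls u N r p).card := by rw [Finset.sum_const, nsmul_eq_mul, mul_one]

lemma bp_orth (u : ℕ → ℤ) (N r : ℕ) (G : (ℕ → ℤ) → ℝ) (hG : Loc r G) :
    ∑ n ∈ Icc 1 N, ((u n : ℝ) - bp u N r (past u n)) * G (past u n) = 0 := by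
  classical
  let κ : ℕ → (Fin r → ℤ) := fun n i => past u n i
  have hκ : ∀ n n', κ n = κ n' → ∀ i < r, past u n i = past u n' i := fun n n' h i hi =>
    congrFun h ⟨i, hi⟩
  rw [← Finset.sum_fiberwise_of_maps_to (g := κ) (t := (Icc 1 N).image κ)
    (fun n hn => Finset.mem_image_of_mem _ hn)]
  refine Finset.sum_eq_zero fun c hc => ?_
  obtain ⟨n0, hn0, rfl⟩ := Finset.mem_image.mp hc
  have hS : (Icc 1 N).filter (fun n => κ n = κ n0) = cls u N r (past u n0) := by
    unfold cls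
    refine Finset.filter_congr fun n _ => ?_
    constructor
    · exact fun h => hκ n n0 h
    · intro h
      funext i
      exact h i i.2
  rw [hS]
  have h1 : ∀ n ∈ cls u N r (past u n0),
      ((u n : ℝ) - bp u N r (past u n)) * G (past u n) =
        ((u n : ℝ) - bp u N r (past u n0)) * G (past u n0) := by
    intro n hn
    have h2 : ∀ i < r, past u n i = past u n0 i := by
      unfold cls at hn
      exact (Finset.mem_filter.mp hn).2
    rw [bp_loc u N r _ _ h2, hG _ _ h2]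
  rw [Finset.sum_congr rfl h1, ← Finset.sum_mul, Finset.sum_sub_distrib, Finset.sum_const,
    nsmul_eq_mul]
  have hmem : n0 ∈ cls u N r (past u n0) := by
    unfold cls
    exact Finset.mem_filter.mpr ⟨hn0, fun i _ => rfl⟩
  have hcard : ((cls u N r (past u n0)).card : ℝ) ≠ 0 := by
    have : (cls u N r (past u n0)).card ≠ 0 := Finset.card_ne_zero_of_mem hmem
    exact_mod_cast this
  have h3 : ((cls u N r (past u n0)).card : ℝ) * bp u N r (past u n0) =
      ∑ n ∈ cls u N r (past u n0), (u n : ℝ) := by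
    unfold bp
    rw [mul_div_cancel₀ _ hcard]
  rw [h3, sub_self, zero_mul]

theorem t_KE1 : S_KE1 := fun u hu N r =>
  ⟨bp u N r, bp_loc u N r, bp_le u hu N r, fun G hG => bp_orth u N r G hG⟩

end Pool.Agent.Helper54.MB
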