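import Pool.Agent.Helper59.MB.Goals3

/-!
# Project MB, packet MB-ZEB: a sequence with subexponential complexity is realised in a system of
entropy zero
-/

set_option autoImplicit false

open Filter Topology

namespace Pool.Agent.Helper54.MB

open Pool.Agent.Helper59.MB

/-- two-sided extension by zero -/
def ext0 (v : ℕ → ℤ) (n : ℤ) : ℤ := if 0 ≤ n then v n.toNat else 0

/-- the shifts of the extension -/
def shf (v : ℕ → ℤ) (i : ℤ) : ℤ → ℤ := fun n => ext0 v (n + i)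

/-- the orbit closure -/
def orbc (v : ℕ → ℤ) : Set (ℤ → ℤ) := closure (Set.range (shf v))

lemma shZ_shf (v : ℕ → ℤ) (i : ℤ) : shZ (shf v i) = shf v (i + 1) := by
  funext n
  change ext0 v (n + 1 + i) = ext0 v (n + (i + 1))
  rw [add_assoc, add_comm 1 i]

lemma shZ_preimage (v : ℕ → ℤ) : (shZ : (ℤ → ℤ) → (ℤ → ℤ)) ⁻¹' (Set.range (shf v)) =
    Set.range (shf v) := by
  ext y
  constructor
  · rintro ⟨i, hi⟩
    refine ⟨i - 1, shZ.injective ?_⟩
    rw [shZ_shf, sub_add_cancel, hi]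
  · rintro ⟨i, rfl⟩
    exact ⟨i + 1, (shZ_shf v i).symm⟩

lemma orbc_inv (v : ℕ → ℤ) (y : ℤ → ℤ) : shZ y ∈ orbc v ↔ y ∈ orbc v := by
  have h : (shZ : (ℤ → ℤ) → (ℤ → ℤ)) ⁻¹' (orbc v) = orbc v := by
    unfold orbc
    rw [Homeomorph.preimage_closure, shZ_preimage]
  exact Set.ext_iff.mp h y

lemma ext0_le (v : ℕ → ℤ) (hv : ∀ n, |v n| ≤ 1) (n : ℤ) : |ext0 v n| ≤ 1 := by
  unfold ext0
  split_ifs
  · exact hv _
  · simp

lemma orbc_le (v : ℕ → ℤ) (hv : ∀ n, |v n| ≤ 1) : ∀ y ∈ orbc v, ∀ n, |y n| ≤ 1 := by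
  have hcl : IsClosed {y : ℤ → ℤ | ∀ n, |y n| ≤ 1} := by
    have : {y : ℤ → ℤ | ∀ n, |y n| ≤ 1} = ⋂ n, (fun y : ℤ → ℤ => y n) ⁻¹' {a : ℤ | |a| ≤ 1} := by
      ext y
      simp
    rw [this]
    exact isClosed_iInter fun n => (isClosed_discrete _).preimage (continuous_apply n)
  intro y hy
  have := closure_minimal (s := Set.range (shf v)) (t := {y : ℤ → ℤ | ∀ n, |y n| ≤ 1}) ?_ hcl hy
  · exact this
  · rintro _ ⟨i, rfl⟩ n
    exact ext0_le v hv _

lemma orbc_compact (v : ℕ → ℤ) (hv : ∀ n, |v n| ≤ 1) : IsCompact (orbc v) := by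
  have h1 : IsCompact (Set.pi Set.univ fun _ : ℤ => Set.Icc (-1 : ℤ) 1) :=
    isCompact_univ_pi fun _ => isCompact_Icc
  refine h1.of_isClosed_subset isClosed_closure fun y hy n _ => ?_
  exact abs_le.mp (orbc_le v hv y hy n)

lemma image_subset (v : ℕ → ℤ) (n : ℕ) :
    (fun (y : ℤ → ℤ) (i : Fin n) => y i) '' orbc v ⊆
      words v n ∪ ((fun (t : ℕ) (i : Fin n) => ext0 v ((i : ℤ) - t)) ''
        (Finset.range (n + 1) : Set ℕ)) := by
  rintro _ ⟨y, hy, rfl⟩
  have ho : IsOpen (⋂ i : Fin n, (fun z : ℤ → ℤ => z ((i : ℕ) : ℤ)) ⁻¹' {y ((i : ℕ) : ℤ)}) :=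
    isOpen_iInter_of_finite fun i => (isOpen_discrete _).preimage (continuous_apply _)
  have hyo : y ∈ ⋂ i : Fin n, (fun z : ℤ → ℤ => z ((i : ℕ) : ℤ)) ⁻¹' {y ((i : ℕ) : ℤ)} :=
    Set.mem_iInter.mpr fun i => rfl
  obtain ⟨z, hz, ⟨i0, rfl⟩⟩ := mem_closure_iff.mp hy _ ho hyo
  have hz' : ∀ i : Fin n, ext0 v (((i : ℕ) : ℤ) + i0) = y ((i : ℕ) : ℤ) := fun i =>
    Set.mem_iInter.mp hz i
  rcases le_or_gt 0 i0 with h0 | h0
  · left
    refine ⟨i0.toNat, ?_⟩
    funext i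
    change v (i0.toNat + i) = y ((i : ℕ) : ℤ)
    rw [← hz' i, ext0, if_pos (by omega)]
    congr 1
    omega
  · right
    refine ⟨min (-i0).toNat n, ?_, ?_⟩
    · rw [Finset.mem_coe, Finset.mem_range]
      omega
    · funext i
      change ext0 v (((i : ℕ) : ℤ) - ((min (-i0).toNat n : ℕ) : ℤ)) = y ((i : ℕ) : ℤ)
      rw [← hz' i]
      have hi := i.isLt
      rcases le_or_gt (-i0).toNat n with h1 | h1
      · rw [min_eq_left h1]
        congr 1
        omega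
      · rw [min_eq_right h1.le, ext0, ext0, if_neg (by omega), if_neg (by omega)]

lemma words_finite (v : ℕ → ℤ) (hv : ∀ n, |v n| ≤ 1) (n : ℕ) : (words v n).Finite := by
  refine (Set.Finite.pi' (t := fun _ : Fin n => Set.Icc (-1 : ℤ) 1)
    fun _ => Set.finite_Icc (-1) 1).subset ?_
  rintro _ ⟨a, rfl⟩ i
  exact abs_le.mp (hv _)

lemma image_ncard (v : ℕ → ℤ) (hv : ∀ n, |v n| ≤ 1) (n : ℕ) :
    ((fun (y : ℤ → ℤ) (i : Fin n) => y i) '' orbc v).ncard ≤ (words v n).ncard + (n + 1) := by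
  have hG : ((fun (t : ℕ) (i : Fin n) => ext0 v ((i : ℤ) - t)) ''
      (Finset.range (n + 1) : Set ℕ)).Finite := (Finset.finite_toSet _).image _
  refine (Set.ncard_le_ncard (image_subset v n) ((words_finite v hv n).union hG)).trans ?_
  refine (Set.ncard_union_le _ _).trans ?_
  refine Nat.add_le_add_left ?_ _
  refine (Set.ncard_image_le (Finset.finite_toSet _)).trans ?_
  rw [Set.ncard_coe_finset, Finset.card_range]

lemma linear_le_exp (ε : ℝ) (hε : 0 < ε) :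
    ∀ n : ℕ, (n : ℝ) + 1 ≤ (1 + 1 / (ε * Real.log 2)) * 2 ^ (ε * n) := by
  intro n
  have hl : 0 < Real.log 2 := Real.log_pos one_lt_two
  have hel : 0 < ε * Real.log 2 := mul_pos hε hl
  have h1 : 1 + ε * Real.log 2 * n ≤ (2 : ℝ) ^ (ε * n) := by
    rw [Real.rpow_def_of_pos two_pos]
    have := Real.add_one_le_exp (Real.log 2 * (ε * n))
    linarith
  have hn : (0 : ℝ) ≤ n := Nat.cast_nonneg n
  calc (n : ℝ) + 1 ≤ (1 + 1 / (ε * Real.log 2)) * (1 + ε * Real.log 2 * n) := by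
        have h2 : 1 / (ε * Real.log 2) * (ε * Real.log 2 * n) = n := by
          field_simp
        have h3 : 0 ≤ 1 / (ε * Real.log 2) := by positivity
        have h4 : 0 ≤ ε * Real.log 2 * n := by positivity
        have h5 : (1 + 1 / (ε * Real.log 2)) * (1 + ε * Real.log 2 * n) =
          1 + ε * Real.log 2 * n + 1 / (ε * Real.log 2) +
            1 / (ε * Real.log 2) * (ε * Real.log 2 * n) := by ring
        rw [h5, h2]
        linarith
    _ ≤ (1 + 1 / (ε * Real.log 2)) * 2 ^ (ε * n) :=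
        mul_le_mul_of_nonneg_left h1 (by positivity)

theorem t_ZEB (hZEA : S_ZEA) : S_ZEB := by
  intro v hv hcx
  have hne : (orbc v).Nonempty := ⟨shf v 0, subset_closure ⟨0, rfl⟩⟩
  have hent : Dynamics.coverEntropy (⇑shZ) (orbc v) = 0 := by
    refine hZEA (orbc v) isClosed_closure hne (orbc_le v hv) (orbc_inv v) fun ε hε => ?_
    obtain ⟨C, hC⟩ := hcx ε hε
    refine ⟨C + (1 + 1 / (ε * Real.log 2)), fun n => ?_⟩
    have h1 : ((((fun (y : ℤ → ℤ) (i : Fin n) => y i) '' orbc v).ncard : ℕ) : ℝ) ≤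
        (words v n).ncard + (n + 1) := by exact_mod_cast image_ncard v hv n
    have h2 := hC n
    have h3 := linear_le_exp ε hε n
    rw [add_mul]
    linarith
  have hmaps : Set.MapsTo (⇑shZ) (orbc v) (orbc v) := fun y hy => (orbc_inv v y).mpr hy
  have hent' : Dynamics.coverEntropy (hmaps.restrict (⇑shZ) (orbc v) (orbc v)) Set.univ = 0 := by
    rw [Dynamics.coverEntropy_restrict hmaps, hent]
  have hcomp : CompactSpace (orbc v) := isCompact_iff_compactSpace.mp (orbc_compact v hv)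
  let T : orbc v ≃ₜ orbc v := shZ.subtype fun y => (orbc_inv v y).symm
  have hT : ∀ n : ℕ, ∀ x : orbc v, ((⇑T)^[n] x : ℤ → ℤ) = fun j => (x : ℤ → ℤ) (j + n) := by
    intro n
    induction n with
    | zero =>
      intro x
      funext j
      simp
    | succ n ih =>
      intro x
      rw [Function.iterate_succ_apply, ih (T x)]
      funext j
      change (x : ℤ → ℤ) (j + n + 1) = (x : ℤ → ℤ) (j + ((n + 1 : ℕ) : ℤ))
      rw [Nat.cast_succ, add_assoc]
  letI mY : MetricSpace (orbc v) := UniformSpace.metricSpace (orbc v)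
  refine ⟨orbc v, mY, hcomp, T, ⟨fun y => (((y : ℤ → ℤ) 0 : ℤ) : ℝ), ?_⟩,
    ⟨shf v 0, subset_closure ⟨0, rfl⟩⟩, hent', fun n => ?_⟩
  · exact continuous_of_discreteTopology.comp ((continuous_apply (0 : ℤ)).comp
      continuous_subtype_val)
  · change ((((⇑T)^[n] ⟨shf v 0, subset_closure ⟨0, rfl⟩⟩ : orbc v) : ℤ → ℤ) 0 : ℝ) = v n
    rw [hT n]
    change ((ext0 v (0 + (n : ℤ) + 0) : ℤ) : ℝ) = v n
    rw [ext0, if_pos (by omega)]
    norm_num

end Pool.Agent.Helper54.MB
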